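import Pool.Agent.GHT.MainC

/-!
# MP_b75a39_al: ring isomorphic Leavitt path algebras have homotopy equivalent graph C*-algebras

For all countable graphs `E`, `F` and every ring isomorphism `φ : L_ℂ(E) → L_ℂ(F)` the graph
C*-algebras `A = C*(E)` and `B = C*(F)` are homotopy equivalent through `*`-homomorphisms, and the
homotopy equivalence `α : C*(E) → C*(F)` is homotopic, on `L_ℂ(E)`, to the `ℂ`-linear homomorphism
`f` that agrees with `φ` on the generators.

The definitions are in `Pool/Agent/GHT/Defs.lean` (graphs, Leavitt path algebras, Cuntz-Krieger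
families, universality, homotopy of `*`-homomorphisms) and `Pool/Agent/GHT/Def2.lean`.
-/

namespace Pool.Agent.Results.MP_b75a39_al.HomotopyEquivalence

open Pool.Agent.GHT

theorem result (E F : DGraph) [Countable E.V] [Countable E.E] [Countable F.V] [Countable F.E]
    (φ : LPA E ≃+* LPA F) (A B : Type) [NonUnitalCStarAlgebra A] [NonUnitalCStarAlgebra B]
    (Φ : CKFam E A) (_ : Φ.IsUniversal) (Ψ : CKFam F B) (_ : Ψ.IsUniversal) :
    ∃ (α : A →⋆ₙₐ[ℂ] B) (β : B →⋆ₙₐ[ℂ] A), HomotopyInverse α β ∧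
      ∃ (ιE : LPA E →ₙₐ[ℂ] A) (ιF : LPA F →ₙₐ[ℂ] B) (f : LPA E →ₙₐ[ℂ] LPA F),
        Φ.IsCanonical ιE ∧ Ψ.IsCanonical ιF ∧ AgreeOnGen f φ ∧
        HomotopicL (compL ιF f) (compR α ιE) ∧ SameIdem (compL ιF f) (compR α ιE) :=
  main_homotopy φ Φ ‹_› Ψ ‹_›

end Pool.Agent.Results.MP_b75a39_al.HomotopyEquivalence
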