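import Pool.Agent.RIG.IsoF

/-!
# MP_b75a39_al: the isomorphism conjecture for graph algebras (Abrams, Tomforde)

For all countable graphs `E`, `F`: if the Leavitt path algebras `L_ℂ(E)` and `L_ℂ(F)` are isomorphic as
rings, then the graph C*-algebras `C*(E)` and `C*(F)` are isomorphic as `*`-algebras.

The definitions are in `Pool/Agent/GHT/Defs.lean` (graphs, Leavitt path algebras, Cuntz-Krieger
families, universality) and `Pool/Agent/GHT/Def2.lean` (the Leavitt path algebra as a type).
-/

namespace Pool.Agent.Results.MP_b75a39_al.IsomorphismConjecture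

open Pool.Agent.GHT

theorem result (E F : DGraph) [Countable E.V] [Countable E.E] [Countable F.V] [Countable F.E]
    (φ : LPA E ≃+* LPA F) (A B : Type) [NonUnitalCStarAlgebra A] [NonUnitalCStarAlgebra B]
    (Φ : CKFam E A) (_ : Φ.IsUniversal) (Ψ : CKFam F B) (_ : Ψ.IsUniversal) :
    Nonempty (A ≃⋆ₐ[ℂ] B) :=
  Pool.Agent.RIG.iso_all φ Φ ‹_› Ψ ‹_›

end Pool.Agent.Results.MP_b75a39_al.IsomorphismConjecture
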