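import Pool.Agent.GHT.MainC

/-!
# MP_b75a39_al: ring isomorphic complex Leavitt path algebras are isomorphic as algebras

For countable graphs `E`, `F` and every ring isomorphism `φ : L_ℂ(E) → L_ℂ(F)` there is an
isomorphism of `ℂ`-algebras `f : L_ℂ(E) → L_ℂ(F)` that agrees with `φ` on the vertices, the edges
and the ghost edges.

The definitions (graphs, Leavitt path algebras) are in `Pool/Agent/GHT/Defs.lean` and
`Pool/Agent/GHT/Def2.lean`.
-/

namespace Pool.Agent.Results.MP_b75a39_al.LinearIsomorphism

open Pool.Agent.GHT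

theorem result (E F : DGraph) [Countable E.V] [Countable E.E] [Countable F.V] [Countable F.E]
    (φ : LPA E ≃+* LPA F) :
    ∃ f : LPA E →ₙₐ[ℂ] LPA F, Function.Bijective f ∧ AgreeOnGen f φ :=
  main_linear φ

end Pool.Agent.Results.MP_b75a39_al.LinearIsomorphism
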